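import Pool.Agent.N848.LT.Stm

/-!
# Project LT, part LEO: from relative units to all units
-/

set_option autoImplicit false

namespace Pool.Agent.N458.LT.LEO

open NumberField IsDedekindDomain Module Pool.Agent.N848.LT Pool.Agent.Y18.LC

variable {F K : Type} [Field F] [NumberField F] [Field K] [NumberField K] [Algebra F K]

/-- the norm of an integer close to `1` is close to `1` -/
theorem norm_close (hINT : S_INT) (M : ℕ) (x : 𝓞 K) (hx : (2 : 𝓞 K) ^ M ∣ x - 1) :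
    (2 : 𝓞 F) ^ M ∣ RingOfIntegers.norm F x - 1 := by
  obtain ⟨t, ht⟩ := hx
  have h2 : (2 : F) ^ M ≠ 0 := pow_ne_zero _ two_ne_zero
  obtain ⟨r, hr⟩ : ∃ r : F, r = (Algebra.norm F (x : K) - 1) / 2 ^ M := ⟨_, rfl⟩
  have hxt : (x : K) = 1 + algebraMap F K (2 ^ M) * (t : K) := by
    have h1 : x = 1 + 2 ^ M * t := by rw [← ht]; ring
    have h3 : (x : K) = 1 + ((algebraMap (𝓞 K) K) 2) ^ M * (t : K) := by
      rw [h1]
      simp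
    rw [h3, map_ofNat, map_pow, map_ofNat]
  have hint : ∀ u : HeightOneSpectrum (𝓞 F), u.valuation F r ≤ 1 := by
    intro u
    obtain ⟨-, -, h3⟩ := hINT F K u (t : K) fun v _ => v.valuation_le_one t
    obtain ⟨s, hs1, hs2⟩ := h3 ((2 : F) ^ M) (by
      have h4 : u.valuation F (algebraMap (𝓞 F) F ((2 : 𝓞 F) ^ M)) ≤ 1 := u.valuation_le_one _
      have h5 : algebraMap (𝓞 F) F ((2 : 𝓞 F) ^ M) = (2 : F) ^ M := by rw [map_pow, map_ofNat]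
      rw [h5] at h4
      exact h4)
    rw [← hxt] at hs2
    have h5 : r = s := by
      rw [hr, hs2]
      field_simp
      ring
    rw [h5]
    exact hs1
  obtain ⟨ρ, hρ⟩ := HeightOneSpectrum.mem_integers_of_valuation_le_one F r hint
  refine ⟨ρ, ?_⟩
  apply RingOfIntegers.ext
  have h6 : ((RingOfIntegers.norm F x : 𝓞 F) : F) = Algebra.norm F (x : K) := rfl
  have h7 : (ρ : F) = r := hρ
  have h8 : 2 ^ M * r = Algebra.norm F (x : K) - 1 := by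
    rw [hr]
    field_simp
  have h9 : ((RingOfIntegers.norm F x - 1 : 𝓞 F) : F) = Algebra.norm F (x : K) - 1 := by
    rw [← h6]
    simp
  have h10 : ((2 ^ M * ρ : 𝓞 F) : F) = 2 ^ M * (ρ : F) := by
    have h11 : ((2 ^ M * ρ : 𝓞 F) : F) = ((algebraMap (𝓞 F) F) 2) ^ M * (ρ : F) := by simp
    rw [h11, map_ofNat]
  rw [h9, h10, h7, h8]

/-- repeated square roots -/
theorem roots (hROOT : S_ROOT) (hodd : Odd (finrank F K))
    (hns : ∀ u : HeightOneSpectrum (𝓞 F), (2 : 𝓞 F) ∈ u.asIdeal → NS K u) (hPP : PP F K) (n : ℕ) :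
    ∀ (M : ℕ) (z : (𝓞 K)ˣ), n + 4 ≤ M → Algebra.norm F (((z : 𝓞 K) : K)) = 1 →
      (2 : 𝓞 K) ^ M ∣ (z : 𝓞 K) - 1 → ∃ w : (𝓞 K)ˣ, w ^ 2 ^ n = z := by
  induction n with
  | zero => exact fun M z _ _ _ => ⟨z, by simp⟩
  | succ n ih =>
    intro M z hM hz hd
    obtain ⟨w₁, h1, h2, h3⟩ := hROOT F K hodd hns hPP M (by omega) z hz hd
    obtain ⟨w, hw⟩ := ih (M - 1) w₁ (by omega) h1 h3
    refine ⟨w, ?_⟩
    rw [pow_succ, pow_mul, hw, h2]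

theorem t_LEO (hINT : S_INT) (hROOT : S_ROOT) : S_LEO := by
  intro F K _ _ _ _ _ hodd hns hPP hTop n
  obtain ⟨M₁, hM₁⟩ := hTop n
  refine ⟨max M₁ (n + 4), fun x hx => ?_⟩
  obtain ⟨M, hM⟩ : ∃ M, M = max M₁ (n + 4) := ⟨_, rfl⟩
  rw [← hM] at hx
  have hMM : M₁ ≤ M := by rw [hM]; exact le_max_left _ _
  have hMn : n + 4 ≤ M := by rw [hM]; exact le_max_right _ _
  rw [Nat.cast_ofNat] at hx
  obtain ⟨d, hd⟩ : ∃ d, d = finrank F K := ⟨_, rfl⟩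
  rw [← hd] at hodd
  obtain ⟨a, ha⟩ : ∃ a : (𝓞 F)ˣ, a = Units.map (RingOfIntegers.norm F) x := ⟨_, rfl⟩
  have ha0 : (a : 𝓞 F) = RingOfIntegers.norm F (x : 𝓞 K) := by rw [ha]; rfl
  have ha1 : (2 : 𝓞 F) ^ M ∣ (a : 𝓞 F) - 1 := by
    rw [ha0]
    exact norm_close hINT M (x : 𝓞 K) hx
  obtain ⟨b, hb⟩ := hM₁ a (by
    rw [Nat.cast_ofNat]
    exact (pow_dvd_pow 2 hMM).trans ha1)
  obtain ⟨aK, haK⟩ : ∃ aK : (𝓞 K)ˣ, aK = Units.map (algebraMap (𝓞 F) (𝓞 K)).toMonoidHom a :=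
    ⟨_, rfl⟩
  obtain ⟨bK, hbK⟩ : ∃ bK : (𝓞 K)ˣ, bK = Units.map (algebraMap (𝓞 F) (𝓞 K)).toMonoidHom b :=
    ⟨_, rfl⟩
  have habK : bK ^ 2 ^ n = aK := by rw [hbK, haK, ← map_pow, hb]
  have haK0 : (aK : 𝓞 K) = algebraMap (𝓞 F) (𝓞 K) (a : 𝓞 F) := by rw [haK]; rfl
  have haK1 : (2 : 𝓞 K) ^ M ∣ (aK : 𝓞 K) - 1 := by
    obtain ⟨r, hr⟩ := ha1
    refine ⟨algebraMap (𝓞 F) (𝓞 K) r, ?_⟩
    rw [haK0]
    have h1 := congrArg (algebraMap (𝓞 F) (𝓞 K)) hr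
    rw [map_sub, map_one, map_mul, map_pow, map_ofNat] at h1
    exact h1
  obtain ⟨z, hz⟩ : ∃ z : (𝓞 K)ˣ, z = x ^ d * aK⁻¹ := ⟨_, rfl⟩
  have hza : z * aK = x ^ d := by rw [hz, inv_mul_cancel_right]
  have hnz : Algebra.norm F (((z : 𝓞 K) : K)) = 1 := by
    have h1 : RingOfIntegers.norm F (z : 𝓞 K) * RingOfIntegers.norm F (aK : 𝓞 K) =
        RingOfIntegers.norm F (x : 𝓞 K) ^ d := by
      rw [← map_mul, ← map_pow]
      congr 1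
      exact_mod_cast congrArg (fun w : (𝓞 K)ˣ => (w : 𝓞 K)) hza
    rw [haK0, RingOfIntegers.norm_algebraMap, ← ha0, ← hd] at h1
    have h2 : RingOfIntegers.norm F (z : 𝓞 K) = 1 := by
      have h3 : (a : 𝓞 F) ^ d ≠ 0 := pow_ne_zero _ a.ne_zero
      apply mul_right_cancel₀ h3
      rw [h1, one_mul]
    have h4 : ((RingOfIntegers.norm F (z : 𝓞 K) : 𝓞 F) : F) = ((1 : 𝓞 F) : F) := by rw [h2]
    exact h4.trans (by simp)
  have hz1 : (2 : 𝓞 K) ^ M ∣ (z : 𝓞 K) - 1 := by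
    have h1 : (2 : 𝓞 K) ^ M ∣ (x : 𝓞 K) ^ d - 1 := hx.trans (sub_one_dvd_pow_sub_one _ _)
    have h2 : (z : 𝓞 K) - 1 = (((x : 𝓞 K) ^ d - 1) - ((aK : 𝓞 K) - 1)) * ((aK⁻¹ : (𝓞 K)ˣ) : 𝓞 K) := by
      rw [sub_sub_sub_cancel_right, sub_mul, Units.mul_inv]
      rw [hz]
      push_cast
      ring
    rw [h2]
    exact (dvd_sub h1 haK1).mul_right _
  obtain ⟨w, hw⟩ := roots hROOT (hd ▸ hodd) hns hPP n M z hMn hnz hz1
  have hxd : x ^ d = (w * bK) ^ 2 ^ n := by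
    rw [mul_pow, hw, habK, hza]
  have hcop : IsCoprime (d : ℤ) ((2 ^ n : ℕ) : ℤ) := by
    rw [Nat.isCoprime_iff_coprime]
    exact Nat.Coprime.pow_right n (Nat.coprime_two_right.2 hodd)
  obtain ⟨i, j, hij⟩ := hcop
  refine ⟨(w * bK) ^ i * x ^ j, ?_⟩
  have h1 : x = (x ^ d) ^ i * (x ^ (2 ^ n)) ^ j := by
    rw [← zpow_natCast, ← zpow_natCast, ← zpow_mul, ← zpow_mul, ← zpow_add]
    rw [show (d : ℤ) * i + ((2 ^ n : ℕ) : ℤ) * j = 1 by rw [← hij]; ring, zpow_one]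
  have h2 : ((w * bK) ^ i) ^ 2 ^ n = ((w * bK) ^ 2 ^ n) ^ i := by
    rw [← zpow_natCast, ← zpow_natCast, ← zpow_mul, ← zpow_mul, mul_comm i]
  have h3 : (x ^ j) ^ 2 ^ n = (x ^ (2 ^ n)) ^ j := by
    rw [← zpow_natCast, ← zpow_natCast, ← zpow_mul, ← zpow_mul, mul_comm j]
  rw [mul_pow, h2, h3, ← hxd]
  exact h1.symm

end Pool.Agent.N458.LT.LEO
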